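import Mathlib
import Pool.Agent.Run7.h643.MW.Count
import Pool.Agent.H362R2.CM.Final

/-!
# Clusters of primes in bounded intervals: their logarithms have no relations of growing degree

The conjecture on the logarithms of primes is considered for primes in intervals of bounded length, over arbitrary
complex constants `w_1(n), …, w_q(n)`, which may depend on the position `n` of the interval. By the theorem of Maynard
and Tao there are infinitely many intervals of a length bounded in terms of `m` with `m` primes. We show that there are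
infinitely many such intervals with `m` primes `p_1, …, p_m` for which `log p_1, …, log p_m` satisfy no nontrivial
relation of degree at most `(log p_1) ^ c` over number fields of degree at most `(log p_1) ^ c` and over the constants
`w_j(n)` (`c > 0` depends only on `m` and `q`); there is no bound for the heights of the coefficients.

More precisely: for all `T` and `q` there are `K` and `C` with the following property. Let `T` disjoint sets of integers
with `K` elements each be given (the classes), such that their union is admissible, that is for no prime `p` does it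
meet all residue classes modulo `p`. Then there are at least `T / 4 - q - 2` of the classes, and one element `b_g` in
each of them, such that for infinitely many `n` all the numbers `n + b_g` are primes, and for all `δ` with
`(δ + 2) ^ C ≤ log n` their logarithms satisfy no relation of degree at most `δ` whose coefficients are polynomials in
`w_1(n), …, w_q(n)` over number fields of degree at most `δ`, except for those which are identities after the
substitution of `w(n)`. For `q = 0` a relation of this kind is a nonzero polynomial over a number field which vanishes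
at the logarithms. The `w_j(n)` may be `log n` and the logarithms of any numbers depending on `n`, or the logarithms of
the primes of finitely many clusters of the same kind which have been chosen before.

The starting result `PrimesInWindows` of this problem is about the primes of the windows `(N, N + N ^ c]`, for relations
of fixed degree; it says nothing about the existence of primes. The proof combines the coloured Maynard-Tao theorem
(`Pool.Agent.H362R2.CM.quarter` of the starting files) with the theorem on windows with growing degree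
(`Pool.Agent.R351.GD.multi_window`): at most `q + 2` of the primes in a window have to be left out.
-/

set_option autoImplicit false

namespace Pool.Agent.Results.MP_d171e3_nt.BoundedGaps

open Finset Module

/-- The numbers `x` satisfy no nontrivial relation of degree at most `δ` over the constants `w`: if a polynomial `P` of
total degree at most `δ` over a number field of degree at most `δ` vanishes at `(w, x)`, then `P (w, X)` is the zero
polynomial. -/
def Free (δ : ℕ) {q : ℕ} {ι : Type} (w : Fin q → ℂ) (x : ι → ℂ) : Prop :=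
  ∀ K : IntermediateField ℚ ℂ, FiniteDimensional ℚ K → Module.finrank ℚ K ≤ δ →
    ∀ P : MvPolynomial (Fin q ⊕ ι) K, P.totalDegree ≤ δ → MvPolynomial.aeval (Sum.elim w x) P = 0 →
      MvPolynomial.aeval (Sum.elim (fun a => MvPolynomial.C (w a)) MvPolynomial.X) P = (0 : MvPolynomial ι ℂ)

/-- the size of the windows -/
lemma size (L Y l : ℝ) (C δ : ℕ) (hL : 0 ≤ L) (hY : Y = 2 * L) (hl : 2 * Real.log 2 + Y ^ (C + 1) ≤ l)
    (hδ : ((δ : ℝ) + 2) ^ (C + 1) ≤ l) : ((δ : ℝ) + 2) ^ C * L ≤ l - Real.log 2 := by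
  have h2 : 0 ≤ Real.log 2 := Real.log_nonneg (by norm_num)
  have hδ0 : (0 : ℝ) ≤ δ := Nat.cast_nonneg δ
  have hY0 : 0 ≤ Y := by rw [hY]; positivity
  rcases le_total Y ((δ : ℝ) + 2) with h | h
  · have h3 : ((δ : ℝ) + 2) ^ C * L ≤ l / 2 := by
      have h4 : ((δ : ℝ) + 2) ^ C * (2 * L) ≤ ((δ : ℝ) + 2) ^ C * ((δ : ℝ) + 2) :=
        mul_le_mul_of_nonneg_left (hY ▸ h) (by positivity)
      rw [← pow_succ] at h4
      linarith
    have h5 : 0 ≤ Y ^ (C + 1) := by positivity
    linarith
  · have h3 : ((δ : ℝ) + 2) ^ C * L ≤ Y ^ C * Y := by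
      refine mul_le_mul (pow_le_pow_left₀ (by positivity) h C) ?_ hL (by positivity)
      rw [hY]; linarith
    rw [← pow_succ] at h3
    linarith

open Classical in
/-- **Main result.** -/
theorem result (T q : ℕ) : ∃ K C : ℕ, 1 ≤ K ∧ ∀ b : Fin T → Fin K → ℤ,
    Function.Injective (fun x : Fin T × Fin K => b x.1 x.2) →
    (∀ p : ℕ, p.Prime → ∃ n : ℤ, ∀ g i, ¬ ((p : ℤ) ∣ n + b g i)) →
    ∀ w : ℕ → Fin q → ℂ, ∃ (S : Finset (Fin T)) (c : Fin T → Fin K), T ≤ 4 * (S.card + q + 2) ∧
      {n : ℕ | (∀ g ∈ S, 0 < (n : ℤ) + b g (c g) ∧ Prime ((n : ℤ) + b g (c g))) ∧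
        ∀ δ : ℕ, ((δ : ℝ) + 2) ^ C ≤ Real.log n →
          Free δ (w n) fun g : S => ((Real.log ((n : ℝ) + b g (c g)) : ℝ) : ℂ)}.Infinite := by
  obtain ⟨K, hK, hquarter⟩ := Pool.Agent.H362R2.CM.quarter T
  choose E hE1 hE2 hE using fun r : ℕ => Pool.Agent.R351.GD.multi_window q r 1 1 1
  choose cc hcc using hE1
  set C := ∑ r ∈ range (T + 1), cc r with hC
  have hccC : ∀ r, r ≤ T → cc r ≤ C := fun r hr =>
    Finset.single_le_sum (f := cc) (fun _ _ => Nat.zero_le _) (mem_range.2 (by omega))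
  refine ⟨K, C + 1, hK, fun b hinj hadm w => ?_⟩
  obtain ⟨S, c, hS, hinf⟩ := hquarter (fun _ _ => 1) b (fun _ _ => one_pos)
    (fun x y hxy => hinj (Prod.mk.inj hxy).2)
    (fun p hp => by
      obtain ⟨n, hn⟩ := hadm p hp
      exact ⟨n, fun g i => by rw [one_mul]; exact hn g i⟩)
  -- the window of `n`
  set B : ℕ := ∑ g, ∑ i, (b g i).natAbs with hB
  have hbB : ∀ g i, (b g i).natAbs ≤ B := fun g i =>
    (Finset.single_le_sum (f := fun i => (b g i).natAbs) (fun _ _ => Nat.zero_le _) (mem_univ i)).trans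
      (Finset.single_le_sum (f := fun g => ∑ i, (b g i).natAbs) (fun _ _ => Nat.zero_le _) (mem_univ g))
  set H : ℕ := 2 * B + 1 with hH
  set L : ℝ := Real.log ((H : ℝ) + 2) with hL
  have hL0 : 0 ≤ L := Real.log_nonneg (by
    have : (0 : ℝ) ≤ H := Nat.cast_nonneg H
    linarith)
  set n0 : ℕ := 2 * B + 4 + ⌈Real.exp (2 * Real.log 2 + (2 * L) ^ (C + 1))⌉₊ with hn0
  have hsz : ∀ n : ℕ, n0 ≤ n → ∀ δ : ℕ, ((δ : ℝ) + 2) ^ (C + 1) ≤ Real.log n → ∀ r ≤ T,
      ((H : ℝ) + 2) ^ E r δ ≤ ‖((n - (B + 1) : ℕ) : ℂ)‖ := by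
    intro n hn δ hδ r hr
    have hnpos : (0 : ℝ) < n := by
      have : 0 < n := by omega
      exact_mod_cast this
    have h1 : 2 * Real.log 2 + (2 * L) ^ (C + 1) ≤ Real.log n := by
      rw [Real.le_log_iff_exp_le hnpos]
      refine (Nat.le_ceil _).trans ?_
      exact_mod_cast (show _ ≤ n by omega)
    have h2 := size L (2 * L) (Real.log n) C δ hL0 rfl h1 hδ
    have hH1 : (1 : ℝ) ≤ (H : ℝ) + 2 := by linarith [(Nat.cast_nonneg H : (0 : ℝ) ≤ H)]
    have h3 : E r δ ≤ (δ + 2) ^ C := (hcc r δ).trans (Nat.pow_le_pow_right (by omega) (hccC r hr))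
    refine (pow_le_pow_right₀ hH1 h3).trans ?_
    have h4 : ((H : ℝ) + 2) ^ ((δ + 2) ^ C) = Real.exp (((δ : ℝ) + 2) ^ C * L) := by
      rw [← Real.exp_log (show (0 : ℝ) < ((H : ℝ) + 2) ^ ((δ + 2) ^ C) by positivity), Real.log_pow]
      push_cast
      rfl
    rw [h4, Complex.norm_natCast]
    refine (Real.exp_le_exp.2 h2).trans ?_
    rw [Real.exp_sub, Real.exp_log hnpos, Real.exp_log two_pos]
    have h5 : (n : ℝ) ≤ 2 * ((n - (B + 1) : ℕ) : ℝ) := by
      exact_mod_cast (show n ≤ 2 * (n - (B + 1)) by omega)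
    linarith
  -- the exceptional set of the window of `n`
  have hex : ∀ (n r δ : ℕ), ∃ S' : Finset ℂ, S'.card ≤ q + 2 ∧ (n0 ≤ n → r ≤ T →
      ((δ : ℝ) + 2) ^ (C + 1) ≤ Real.log n → ∀ β : Fin r → ℂ, Function.Injective β →
      (∀ i, β i ∉ S' ∧ β i ≠ 0 ∧ Pool.Agent.Y916.Ari.Adm 1 H (β i)) →
      ∀ x : Fin r → ℂ, (∀ i, Complex.exp (x i) = ((n - (B + 1) : ℕ) : ℂ) + β i) →
      Pool.Agent.Run7.h643.MW.Fr δ (w n) x) := by
    intro n r δ
    by_cases h : n0 ≤ n ∧ r ≤ T ∧ ((δ : ℝ) + 2) ^ (C + 1) ≤ Real.log n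
    · obtain ⟨S', h1, h2⟩ := hE r (Fin q) (Fintype.card_fin q) (w n) δ H ((n - (B + 1) : ℕ) : ℂ)
        (hsz n h.1 δ h.2.2 r h.2.1) (Pool.Agent.R351.GD.ht_nat (by omega))
      exact ⟨S', h1, fun _ _ _ => h2⟩
    · exact ⟨∅, by simp, fun h1 h2 h3 => absurd ⟨h1, h2, h3⟩ h⟩
  -- the largest degree for `n`
  have hδm : ∀ n : ℕ, ∃ D : ℕ, ∀ δ : ℕ, ((δ : ℝ) + 2) ^ (C + 1) ≤ Real.log n →
      δ ≤ D ∧ ((D : ℝ) + 2) ^ (C + 1) ≤ Real.log n := by
    intro n
    refine ⟨Nat.findGreatest (fun δ : ℕ => ((δ : ℝ) + 2) ^ (C + 1) ≤ Real.log n) ⌈Real.log n⌉₊,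
      fun δ h => ?_⟩
    have h1 : δ ≤ ⌈Real.log n⌉₊ := by
      have h2 : (δ : ℝ) + 2 ≤ ((δ : ℝ) + 2) ^ (C + 1) :=
        le_self_pow₀ (by linarith [(Nat.cast_nonneg δ : (0 : ℝ) ≤ δ)]) (by omega)
      have h3 : (δ : ℝ) ≤ ⌈Real.log n⌉₊ := by
        have := Nat.le_ceil (Real.log n)
        linarith
      exact_mod_cast h3
    exact ⟨Nat.le_findGreatest h1 h,
      Nat.findGreatest_spec (P := fun δ : ℕ => ((δ : ℝ) + 2) ^ (C + 1) ≤ Real.log n) h1 h⟩
  -- the good classes for `n`
  set Inf : Set ℕ := {n : ℕ | ∀ g ∈ S, 0 < (1 : ℤ) * (n : ℤ) + b g (c g) ∧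
        Prime ((1 : ℤ) * (n : ℤ) + b g (c g))} with hInf
  have hST : S.card ≤ T := by
    have := Finset.card_le_univ S
    rwa [Fintype.card_fin] at this
  have hgood : ∀ n ∈ Inf, n0 ≤ n → ∃ G ⊆ S, G.card = S.card - (q + 2) ∧ ∀ δ : ℕ,
      ((δ : ℝ) + 2) ^ (C + 1) ≤ Real.log n →
      Free δ (w n) fun g : G => ((Real.log ((n : ℝ) + b g (c g)) : ℝ) : ℂ) := by
    intro n hn hn0'
    obtain ⟨D, hD⟩ := hδm n
    by_cases hcase : ((D : ℝ) + 2) ^ (C + 1) ≤ Real.log n
    swap
    · obtain ⟨G, hG1, hG2⟩ := Finset.exists_subset_card_eq (show S.card - (q + 2) ≤ S.card by omega)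
      exact ⟨G, hG1, hG2, fun δ hδ => absurd (hD δ hδ).2 hcase⟩
    obtain ⟨S', hS'1, hS'2⟩ := hex n (S.card - (q + 2)) D
    have hS'3 := hS'2 hn0' (by omega) hcase
    have hβ : ∀ g, 1 ≤ b g (c g) + B + 1 ∧ b g (c g) + B + 1 ≤ H := by
      intro g
      have h1 := hbB g (c g)
      have h2 : |b g (c g)| ≤ B := by rw [Int.abs_eq_natAbs]; exact_mod_cast h1
      rw [abs_le] at h2
      rw [hH]
      push_cast
      omega
    have hcard : S.card - (q + 2) ≤ (S.filter fun g => ((b g (c g) + B + 1 : ℤ) : ℂ) ∉ S').card := by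
      have h1 : (S.filter fun g => ((b g (c g) + B + 1 : ℤ) : ℂ) ∈ S').card ≤ q + 2 := by
        refine le_trans (Finset.card_le_card_of_injOn (fun g => ((b g (c g) + B + 1 : ℤ) : ℂ))
          (fun g hg => ?_) (fun g _ g' _ hgg => ?_)) hS'1
        · exact (mem_filter.1 (mem_coe.1 hg)).2
        · have h2 : b g (c g) + B + 1 = b g' (c g') + B + 1 := by
            have h4 : ((b g (c g) + B + 1 : ℤ) : ℂ) = ((b g' (c g') + B + 1 : ℤ) : ℂ) := hgg
            exact Int.cast_injective h4
          have h3 : b g (c g) = b g' (c g') := by omega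
          exact (Prod.mk.inj (@hinj (g, c g) (g', c g') h3)).1
      have h2 := Finset.card_filter_add_card_filter_not (s := S) (fun g => ((b g (c g) + B + 1 : ℤ) : ℂ) ∈ S')
      omega
    obtain ⟨G, hG1, hG2⟩ := Finset.exists_subset_card_eq hcard
    have hGS : G ⊆ S := hG1.trans (Finset.filter_subset _ _)
    refine ⟨G, hGS, hG2, fun δ hδ => ?_⟩
    set e : Fin (S.card - (q + 2)) ≃ G := (G.equivFinOfCardEq hG2).symm with he
    have hpos : ∀ g ∈ S, (0 : ℝ) < (n : ℝ) + b g (c g) := by
      intro g hg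
      have h1 := (hn g hg).1
      rw [one_mul] at h1
      exact_mod_cast h1
    have hfr := hS'3 (fun i => ((b (e i) (c (e i)) + B + 1 : ℤ) : ℂ)) (fun i i' hii => ?_) (fun i => ?_)
      (fun i => ((Real.log ((n : ℝ) + b (e i) (c (e i))) : ℝ) : ℂ)) (fun i => ?_)
    · have hfr' := hfr.comp e.symm
      have hfun : (fun g : G => ((Real.log ((n : ℝ) + b (e (e.symm g)) (c (e (e.symm g)))) : ℝ) : ℂ)) =
          fun g : G => ((Real.log ((n : ℝ) + b g (c g)) : ℝ) : ℂ) := by
        funext g
        rw [Equiv.apply_symm_apply]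
      rw [hfun] at hfr'
      intro K hK hKd P hPd hP0
      exact hfr' K hK (hKd.trans (hD δ hδ).1) P (hPd.trans (hD δ hδ).1) hP0
    · have h2 : b (e i) (c (e i)) + B + 1 = b (e i') (c (e i')) + B + 1 := by
        have h4 : ((b (e i) (c (e i)) + B + 1 : ℤ) : ℂ) = ((b (e i') (c (e i')) + B + 1 : ℤ) : ℂ) := hii
        exact Int.cast_injective h4
      have h3 : b (e i) (c (e i)) = b (e i') (c (e i')) := by omega
      exact e.injective (Subtype.ext (Prod.mk.inj (@hinj ((e i : Fin T), c (e i)) ((e i' : Fin T), c (e i')) h3)).1)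
    · refine ⟨(mem_filter.1 (hG1 (e i).2)).2, ?_, ?_⟩
      · have := (hβ (e i)).1
        exact_mod_cast (show b (e i) (c (e i)) + B + 1 ≠ 0 by omega)
      · refine Pool.Agent.R351.GD.adm_int le_rfl ?_ ?_
        · have := (hβ (e i)).1
          omega
        · rw [abs_of_nonneg (by have := (hβ (e i)).1; omega)]
          exact (hβ (e i)).2
    · rw [← Complex.ofReal_exp, Real.exp_log (hpos _ (hGS (e i).2))]
      have h1 : B + 1 ≤ n := by omega
      push_cast [Nat.cast_sub h1]
      ring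
  -- infinitely many `n` have the same good classes
  have hinf' : {n : ℕ | n ∈ Inf ∧ n0 ≤ n}.Infinite := by
    have h1 : (Inf \ ((range n0 : Finset ℕ) : Set ℕ)).Infinite := hinf.sdiff (Finset.finite_toSet _)
    refine h1.mono fun n hn => ⟨hn.1, ?_⟩
    have h2 := hn.2
    rw [mem_coe, mem_range] at h2
    omega
  by_contra hcon
  push Not at hcon
  apply hinf'
  have hfin : ∀ G ∈ S.powerset, {n : ℕ | n ∈ Inf ∧ n0 ≤ n ∧ G.card = S.card - (q + 2) ∧ ∀ δ : ℕ,
      ((δ : ℝ) + 2) ^ (C + 1) ≤ Real.log n →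
      Free δ (w n) fun g : G => ((Real.log ((n : ℝ) + b g (c g)) : ℝ) : ℂ)}.Finite := by
    intro G hG
    rw [mem_powerset] at hG
    by_cases hGc : G.card = S.card - (q + 2)
    swap
    · refine Set.Finite.subset Set.finite_empty fun n hn => absurd hn.2.2.1 hGc
    have h1 := hcon G c (by omega)
    refine h1.subset fun n hn => ⟨fun g hg => ?_, hn.2.2.2⟩
    have h2 := hn.1 g (hG hg)
    rwa [one_mul] at h2
  refine ((Finset.finite_toSet S.powerset).biUnion hfin).subset fun n hn => ?_
  obtain ⟨G, hG1, hG2, hG3⟩ := hgood n hn.1 hn.2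
  exact Set.mem_biUnion (mem_coe.2 (mem_powerset.2 hG1)) ⟨hn.1, hn.2, hG2, hG3⟩

end Pool.Agent.Results.MP_d171e3_nt.BoundedGaps
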