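import Pool.Agent.Results.MP_d171e3_nt.RandomCombinations
import Pool.Agent.Run7.h469.Ns
import Pool.Agent.Run7.h469.Cnt

/-!
# Logarithms of products of powers of primes with exponents near a generic subspace

Let `ℚ̄` be the field of algebraic numbers and let `LogForms` be the space of all linear combinations, with algebraic
coefficients, of `1` and logarithms of algebraic numbers. Let `W` be a `ℚ̄`-space of dimension at most `m` of arbitrary complex
numbers. There is a space `F ⊆ LogForms` of bounded dimension, which depends only on `W`, and `F = ℚ̄` for `W ⊆ ℚ̄`, with the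
following property. Let `p_1, …, p_k` be ARBITRARY distinct primes, `r_1, …, r_n` positive rational numbers, and, for an integral
`n × k` matrix `a`, let `y_j = log (r_j ∏_i p_i^(a_{j,i}))`, `j = 1, …, n`. We say that `y` has no relation if the `y_j` are
linearly independent over `ℚ̄` modulo `F`, and if, for ARBITRARY elements `l_1, …, l_s` of `LogForms`, linearly independent over
`ℚ̄` modulo `F` and the `y_j`, no nonzero polynomial `P (X, Y)` with coefficients in `W`, of degree at most `D` in every `X_j` and
of total degree at most `1` in the `Y_j`, vanishes at `(y, l)`.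

Theorem. There are `k₀` and `δ > 0`, depending only on `n`, `D` and `m`, with the following property. Let `k ≥ k₀`, `h ≥ 0` and
`0 ≤ θ < 1`. (1) For all systems `α` of `h` real `n × k` matrices outside a set of Hausdorff dimension at most
`n k (h - 1) + (n k - δ k + h) / (1 - θ)` (less than `n k h`, if `h + n k θ < δ k`) and all `A`, for ALL but finitely many of the
integral matrices `a`, for which the distance of `a` to some point `∑ x_l α_l` of the space spanned by `α` is at most
`A (1 + |x|)^θ`, the row `y` has no relation. (2) If `h ≥ 1` and `h + n k θ < δ k`, then for almost all `α` this is true for ALL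
systems of `k` distinct primes and ALL positive rational numbers `r_j` at the same time.

So for almost all real `n × k` matrices `α`, for ALL systems of `k` distinct primes `p_i` and all large integers `v` the
logarithms of the numbers `∏_i p_i^⌊v α_{j,i}⌋` have no algebraic relation of degree at most `D` (`h = 1`, `θ = 0`, `k ≥ k₀`,
`δ k > 1`). The dimension `h` of the subspaces can be large, up to `δ k`. As `A` is arbitrary, the same holds for the integral
matrices near the affine subspaces parallel to the given one.

The theorem `RandomCombinations` of this problem (of our team) shows that for an arbitrary finite set `X` of integers all but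
`C |X|^(n k - δ k)` of the matrices with entries in `X` give a row without relations. For `X = {-T, …, T}` and fixed `k` this is a
power saving, by the power `δ k` of `T`, and this power is larger than the dimension `h`. A covering argument
(`Pool.Agent.N251.LF.Tuples` of the starting library, where it is applied to tuples of integers) bounds the dimension of the
exceptional set of `α`.
-/

set_option autoImplicit false

namespace Pool.Agent.Results.MP_d171e3_nt.NearGenericSubspaces

open Module MeasureTheory
open Run7.h469.Ns (Near NearSubspaces NearAlmostAll near_rat near_int)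
open Pool.Agent.Results.MP_d171e3_nt.RandomCombinations (LogForms NoRelation)

/-- **Logarithms of products of powers of primes near generic subspaces.** There are `k₀` and `δ > 0`, depending only on `n`,
`D` and `m`, such that for all `W` of dimension at most `m` there is `F`, as in the theorem `RandomCombinations`, such that for
all `k ≥ k₀`, `h` and `0 ≤ θ < 1`: (1) for all distinct primes `p_i` and positive rationals `r_j`, for all systems `α` of `h` real
`n × k` matrices outside a set of dimension at most `n k (h - 1) + (n k - δ k + h) / (1 - θ)`, for all `A`, for all but finitely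
many of the integral matrices `a` within `A (1 + |x|)^θ` of some point `∑ x_l α_l` of the space spanned by `α` the row
`y_j = log (r_j ∏_i p_i^(a_{j,i}))` has no relation; (2) if `h ≥ 1` and `h + n k θ < δ k`, then for almost all `α` this is true
for ALL `p` and `r`. -/
theorem result (n D m : ℕ) (hn : 1 ≤ n) : ∃ (k₀ : ℕ) (δ : ℝ), 0 < δ ∧
    ∀ W : Submodule (algebraicClosure ℚ ℂ) ℂ, Module.Finite (algebraicClosure ℚ ℂ) W →
    finrank (algebraicClosure ℚ ℂ) W ≤ m →
    ∃ F : Submodule (algebraicClosure ℚ ℂ) ℂ,
      Module.Finite (algebraicClosure ℚ ℂ) F ∧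
      finrank (algebraicClosure ℚ ℂ) F ≤ (m + 1) ^ 3 + 1 ∧ F ≤ LogForms ∧
      (W ≤ Submodule.span (algebraicClosure ℚ ℂ) {(1 : ℂ)} →
        F = Submodule.span (algebraicClosure ℚ ℂ) {(1 : ℂ)}) ∧
      ∀ k ≥ k₀, ∀ (h : ℕ) (θ : ℝ), 0 ≤ θ → θ < 1 →
        (∀ p : Fin k → ℕ, (∀ i, (p i).Prime) → Function.Injective p → ∀ r : Fin n → ℚ, (∀ j, 0 < r j) →
          NearSubspaces n k h ((n : ℝ) * k * (h - 1) + (n * k - δ * k + h) / (1 - θ)) θ
            (fun a => NoRelation W F D (fun j => (Real.log ((r j : ℝ) * ∏ i, (p i : ℝ) ^ (a j i)) : ℂ)))) ∧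
        (1 ≤ h → (h : ℝ) + n * k * θ < δ * k → ∀ᵐ α : Fin n × Fin k × Fin h → ℝ,
          ∀ (p : Fin k → ℕ) (r : Fin n → ℚ), (∀ i, (p i).Prime) → Function.Injective p → (∀ j, 0 < r j) →
          ∀ A : ℝ, {a ∈ Near α A θ | ¬ NoRelation W F D
            (fun j => (Real.log ((r j : ℝ) * ∏ i, (p i : ℝ) ^ (a j i)) : ℂ))}.Finite) := by
  obtain ⟨k₀, C, δ, hδ, hR⟩ := Pool.Agent.Results.MP_d171e3_nt.RandomCombinations.result n D m
  refine ⟨max k₀ 1, min δ 1, lt_min hδ one_pos, fun W hW hWm => ?_⟩
  obtain ⟨F, hF1, hF2, hF3, hF4, hF⟩ := hR W hW hWm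
  refine ⟨F, hF1, hF2, hF3, hF4, fun k hk h θ hθ0 hθ => ?_⟩
  have hk1 : 1 ≤ k := (le_max_right _ _).trans hk
  have hk0 : k ≥ k₀ := (le_max_left _ _).trans hk
  have key : ∀ p : Fin k → ℕ, (∀ i, (p i).Prime) → Function.Injective p → ∀ r : Fin n → ℚ, (∀ j, 0 < r j) →
      NearSubspaces n k h ((n : ℝ) * k * (h - 1) + (n * k - min δ 1 * k + h) / (1 - θ)) θ
        (fun a => NoRelation W F D (fun j => (Real.log ((r j : ℝ) * ∏ i, (p i : ℝ) ^ (a j i)) : ℂ))) ∧
      (1 ≤ h → (h : ℝ) + n * k * θ < min δ 1 * k → NearAlmostAll n k h θ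
        (fun a => NoRelation W F D (fun j => (Real.log ((r j : ℝ) * ∏ i, (p i : ℝ) ^ (a j i)) : ℂ)))) := by
    intro p hp hpi r hr
    exact near_int h hn hk1
      (fun a => NoRelation W F D (fun j => (Real.log ((r j : ℝ) * ∏ i, (p i : ℝ) ^ (a j i)) : ℂ))) (Nat.cast_nonneg C)
      (fun X hX => by
        refine le_of_eq_of_le ?_ (hF k hk0 p hp hpi r hr X hX)
        congr!) hθ0 hθ
  refine ⟨fun p hp hpi r hr => (key p hp hpi r hr).1, fun hh hlt => ?_⟩
  have hae : ∀ᵐ α : Fin n × Fin k × Fin h → ℝ, ∀ t : (Fin k → ℕ) × (Fin n → ℚ),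
      (∀ i, (t.1 i).Prime) → Function.Injective t.1 → (∀ j, 0 < t.2 j) →
      ∀ A : ℝ, {a ∈ Near α A θ | ¬ NoRelation W F D
        (fun j => (Real.log ((t.2 j : ℝ) * ∏ i, (t.1 i : ℝ) ^ (a j i)) : ℂ))}.Finite := by
    rw [ae_all_iff]
    rintro ⟨p, r⟩
    by_cases hli : (∀ i, (p i).Prime) ∧ Function.Injective p ∧ ∀ j, 0 < r j
    · obtain ⟨-, h2⟩ := key p hli.1 hli.2.1 r hli.2.2
      filter_upwards [h2 hh hlt] with α hα _ _ _
      exact hα
    · exact Filter.Eventually.of_forall fun α h3 h4 h5 => absurd ⟨h3, h4, h5⟩ hli
  filter_upwards [hae] with α hα p r hp hpi hr A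
  exact hα (p, r) hp hpi hr A

end Pool.Agent.Results.MP_d171e3_nt.NearGenericSubspaces
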