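import Pool.Agent.Results.MP_d171e3_nt.PrimeTuplesAllHeights
import Pool.Agent.Run7.h95.NP.Main

/-!
# Logarithms of all the tuples of primes near products of linear forms: relations of bounded degree, of arbitrary height

For all `k`, `δ`, `d`, `D` there is `c > 0` such that for all `θ, R ≥ 0`, `h ≥ 1` and `0 ≤ σ ≤ 1` with `σ < h (c - k θ)` and all
`ℚ`-subspaces `V` of `ℂ` of dimension at most `D` the following is true for all integer vectors `x` in `[-X, X]^E` with at most
`C Q^(k h (E + 2)) X^(E - σ)` exceptions, `C` depending on `E`, and for ALL vectors `t` of `k` products of `h` linear forms,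
`t_l = ∏_(i ≤ h) y_(l,i)` with `y = M x + z`, `M` an integral matrix of rank `k h`, `z` an integral vector, the entries of `M`
and `z` at most `Q`, all `y_(l,i) ≠ 0`: for ALL `k`-tuples `p` of primes with `|p_l - |t_l|| ≤ R |t| ^ θ` the logarithms
of `p_1, …, p_k` (any branches) satisfy no nontrivial polynomial relation of total degree at most `δ` with coefficients in the
`L`-span of `V`, for any number field `L` of degree at most `d`, of whatever height. Here `Q` can be a small power of `X`.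
We prove a similar result for the integer vectors near `N_n α`, `N_n` a lacunary sequence
(for instance the truncations of the expansions in base `g`, `N_n = g^n`), for all real vectors `α` outside a set of dimension
less than `D`, and `M`, `z` with entries up to a power of `N_n`.

The starting theorem `PrimeTuplesAllHeights` bounds the number of the related `k`-tuples of primes up to `T` by `C T^(k - c)`. The
products of `h` integers form a set of density zero, and so the result for `h ≥ 2` does not follow from this number alone: the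
divisor bound shows that few vectors `y` have products near a related tuple of primes, and for each of the possible `M`, `z` the
map `x ↦ M x + z` has small fibres (engine of helper469, `Run7/h469/Vm`, here extended to windows).
-/

set_option autoImplicit false

namespace Pool.Agent.Results.MP_d171e3_nt.ProductsOfLinearForms

open MeasureTheory
open PrimeTuplesAllHeights (Related)
open Run7.h469.Vk (Hits Lacunary Generic Avoids)
open Run7.h469.Vm (ProductIn)

/-- The integer vectors `t` for which there is a related tuple `p` of primes with `|p_l - |t_l|| ≤ R ‖t‖ ^ θ` for all `l`. -/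
def Bad {k : ℕ} (δ d : ℕ) (V : Submodule ℚ ℂ) (R θ : ℝ) : Set (Fin k → ℤ) :=
  {t | ∃ p : Fin k → ℕ, ((∀ i, (p i).Prime) ∧ Related δ d V p) ∧
    ∀ j, |(p j : ℝ) - (|(t j : ℝ)|)| ≤ R * ‖fun i => (t i : ℝ)‖ ^ θ}

/-- **Theorem.** For all `k ≥ 1`, `δ`, `d`, `D` there is `c > 0` such that for all `h ≥ 1`, `θ, R ≥ 0`, `0 ≤ σ ≤ 1`,
`σ < h (c - k θ)` there is `C` such that for all `ℚ`-subspaces `V` of `ℂ` of dimension at most `D`:
(1) for all `E` and `X, Q ≥ 1`, for all but `C ((E + 1)^(k h) 3^((k h + 1) (E + 1))) Q^(k h (E + 2)) X^(E - σ)` of the integer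
vectors `x` in `[-X, X]^E` no vector `t` of products `t_l = ∏_(i ≤ h) y_(l,i)` of nonzero coordinates of a vector
`y = M x + z`, `M` integral of rank `k h`, with entries of `M` and `z` at most `Q`, is in `Bad`: NO `k`-tuple `p` of primes with
`|p_l - |t_l|| ≤ R ‖t‖ ^ θ` for all `l` is related (logarithms of the `p_l` with a nonzero polynomial of total degree at most
`δ` with coefficients in the `L`-span of `V`, `L` a number field of degree at most `d`, which vanishes at them); (2) for
lacunary `N_i` and `κ ≥ 0`, outside a set of `α` in `ℝ^E` of dimension at most `E - σ + k h (E + 2) κ` (and almost everywhere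
for measures of larger dimension), for all `A'`, for all large `i` the same is true for the integer vectors `x` with
`|x - N_i α| ≤ A'` and `M`, `z` with entries at most `A' N_i^κ`; (3) in particular it is true for almost all `α`, if
`k h (E + 2) κ < σ`. -/
theorem result (k δ d D : ℕ) (hk : 1 ≤ k) : ∃ c : ℝ, 0 < c ∧ ∀ h : ℕ, 1 ≤ h → ∀ θ R σ : ℝ, 0 ≤ θ → 0 ≤ R → 0 ≤ σ →
    σ ≤ 1 → σ < h * (c - k * θ) →
    ∃ C : ℝ, ∀ V : Submodule ℚ ℂ, Module.Finite ℚ V → Module.finrank ℚ V ≤ D →
      (∀ E X Q : ℕ, 1 ≤ X → 1 ≤ Q →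
        (({x : Fin E → ℤ | (∀ j, |x j| ≤ X) ∧ x ∈ Hits (ProductIn h (Bad (k := k) δ d V R θ)) E Q}.ncard : ℕ) : ℝ) ≤
          C * (((E : ℝ) + 1) ^ (k * h) * 3 ^ ((k * h + 1) * (E + 1))) * (Q : ℝ) ^ (k * h * (E + 2)) *
            (X : ℝ) ^ ((E : ℝ) - σ)) ∧
      (∀ E : ℕ, 1 ≤ E → ∀ N : ℕ → ℝ, Lacunary N → ∀ κ : ℝ, 0 ≤ κ →
        Generic ((E : ℝ) - σ + k * h * (E + 2) * κ)
          (fun α : Fin E → ℝ => Avoids (ProductIn h (Bad (k := k) δ d V R θ)) N κ α)) ∧
      ∀ E : ℕ, 1 ≤ E → ∀ N : ℕ → ℝ, Lacunary N → ∀ κ : ℝ, 0 ≤ κ → k * h * (E + 2) * κ < σ →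
        ∀ᵐ α : Fin E → ℝ, Avoids (ProductIn h (Bad (k := k) δ d V R θ)) N κ α := by
  obtain ⟨c, hc, C, hC⟩ := PrimeTuplesAllHeights.result k δ d D
  have hk1 : (1 : ℝ) ≤ k := by exact_mod_cast hk
  refine ⟨min c 1, lt_min hc one_pos, fun h hh θ R σ hθ hR hσ hσ1 hσh => ?_⟩
  have hh1 : (1 : ℝ) ≤ h := by exact_mod_cast hh
  have hm1 : min c 1 ≤ 1 := min_le_right _ _
  have hθ1 : θ ≤ 1 := by
    by_contra hcon
    push Not at hcon
    have h1 : min c 1 - (k : ℝ) * θ ≤ 0 := by nlinarith
    have : (h : ℝ) * (min c 1 - k * θ) ≤ 0 := mul_nonpos_of_nonneg_of_nonpos (by linarith) h1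
    linarith
  obtain ⟨C', -, key⟩ := Run7.h95.NP.near_products (k := k) (b := h) hk hh (s := (k : ℝ) - min c 1)
    (θ := θ) (A := R) (C := |C|) (c' := σ) hθ hθ1 hR (abs_nonneg C) hσ hσ1 (by
      have e : (k : ℝ) - (k - min c 1) - k * θ = min c 1 - k * θ := by ring
      rw [e]
      exact hσh)
  refine ⟨C', fun V hV hVD => key (Fin k → ℕ) (fun p => (∀ i, (p i).Prime) ∧ Related δ d V p) (fun p j => (p j : ℝ))
    (Bad δ d V R θ) ?_ ?_⟩
  · intro X hX F hF
    have hfl : 1 ≤ ⌊X⌋₊ := Nat.le_floor (by simpa using hX)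
    obtain ⟨f1, f2⟩ := hC V hV hVD ⌊X⌋₊ hfl
    have hfl1 : (1 : ℝ) ≤ (⌊X⌋₊ : ℝ) := by exact_mod_cast hfl
    have h3 := Set.ncard_le_ncard (s := (F : Set (Fin k → ℕ)))
      (t := {p : Fin k → ℕ | (∀ i, (p i).Prime ∧ p i ≤ ⌊X⌋₊) ∧ Related δ d V p})
      (fun p hp => ⟨fun i => ⟨(hF p hp).1.1 i, Nat.le_floor ((hF p hp).2 i)⟩, (hF p hp).1.2⟩) f1
    rw [Set.ncard_coe_finset] at h3
    calc (F.card : ℝ) ≤ _ := by exact_mod_cast h3
      _ ≤ C * (⌊X⌋₊ : ℝ) ^ ((k : ℝ) - c) := f2
      _ ≤ |C| * X ^ ((k : ℝ) - min c 1) := by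
          refine mul_le_mul (le_abs_self C) ?_ (by positivity) (abs_nonneg C)
          calc (⌊X⌋₊ : ℝ) ^ ((k : ℝ) - c) ≤ (⌊X⌋₊ : ℝ) ^ ((k : ℝ) - min c 1) :=
                Real.rpow_le_rpow_of_exponent_le hfl1 (by linarith [min_le_left c 1])
            _ ≤ X ^ ((k : ℝ) - min c 1) :=
                Real.rpow_le_rpow (by linarith) (Nat.floor_le (by linarith)) (by linarith)
  · intro t ht
    obtain ⟨p, hp, hpt⟩ := ht
    exact ⟨p, hp, hpt⟩

end Pool.Agent.Results.MP_d171e3_nt.ProductsOfLinearForms
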