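import Pool.Agent.Run7.h788.RandFree
import Pool.Agent.R350.Inst
import Pool.Agent.H297R2.Density
import Pool.Agent.R350.GV

/-!
# Random products of given primes: exponentially few have an algebraic relation between the logarithms

Let `ℚ̄` be the field of algebraic numbers and let `LogForms` be the space of all linear combinations,
with algebraic coefficients, of `1` and logarithms of algebraic numbers.  Let `W` be a `ℚ̄`-space of
dimension at most `m` of arbitrary complex numbers.  There is a space `F ⊆ LogForms` of bounded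
dimension, which depends only on `W`, and `F = ℚ̄` for `W = ℚ̄`, with the following property.

Let `p_1, …, p_k` be ARBITRARY distinct primes, `r_1, …, r_n` positive rational numbers, and `X` a finite
nonempty set of integers, for instance `{0, 1}`.  For all but `C |X| ^ (n k - δ k)` of the
`|X| ^ (n k)` matrices `a = (a_{j,i})` with entries in `X` the logarithms

  `y_j = log (r_j ∏_i p_i ^ a_{j,i})`, `j = 1, …, n`,

are linearly independent over `ℚ̄` modulo `F`, and if `l_1, …, l_s` are ARBITRARY logarithms of primes, or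
of algebraic numbers, or linear forms in such logarithms (any number of them, chosen after `a`), linearly
independent over `ℚ̄` modulo `F` and the `y_j`, then no nonzero polynomial `P (X, Y)` with coefficients in
`W`, of degree at most `D` in every `X_j` and of total degree at most `1` in the `Y_j`, vanishes at
`(y, l)`.  Here `k ≥ k₀`, and `k₀`, `C`, `δ > 0` depend only on `n`, `D` and `m`, and not on the primes.

For `r_j = 1` and `X = {0, 1}` this concerns `n` random subsets of a given set of `k` primes: for all but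
`C 2 ^ (n k - δ k)` of the `2 ^ (n k)` choices of the subsets the sums of the logarithms of the primes in
them have no relation.

In the starting results of this problem the products have a bounded number of random prime factors, and
the exceptions are rare by a power of the number of the primes (`FewPrimesAllLogs`, `RandomPrimes`,
`SumsOfPrimeLogs`), or there is one family of subsets without relations (`BlockSums`).

The proof.  By the hyperplane case of the linear subgroup theorem of Waldschmidt and Roy every cube in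
sufficiently many linearly independent directions contains a point which has only formal relations
(`Pool.Agent.R350.PD_all`).  So the exceptional parameters contain no nondegenerate cube, and an iterated
Cauchy-Schwarz inequality (`Pool.Agent.Y918.OL.cube_count`) shows that they are exponentially rare.  The
induction on `n` is in `Pool.Agent.Run7.h788.RandFree`.
-/

set_option autoImplicit false

namespace Pool.Agent.Results.MP_d171e3_nt.RandomCombinations

open Module MvPolynomial

/-- the linear combinations, with algebraic coefficients, of `1` and logarithms of algebraic numbers -/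
noncomputable def LogForms : Submodule (algebraicClosure ℚ ℂ) ℂ :=
  Submodule.span (algebraicClosure ℚ ℂ) ({1} ∪ {z : ℂ | IsAlgebraic ℚ (Complex.exp z)})

/-- `y` is independent modulo `F` and has no relation with coefficients in `W`, of degree at most `D`
in `y`, which is linear in elements of `LogForms` independent modulo `F` and `y` -/
def NoRelation (W F : Submodule (algebraicClosure ℚ ℂ) ℂ) (D : ℕ) {n : ℕ} (y : Fin n → ℂ) : Prop :=
  (∀ c : Fin n → algebraicClosure ℚ ℂ, ∑ i, c i • y i ∈ F → ∀ i, c i = 0) ∧
  ∀ (s : ℕ) (l : Fin s → ℂ), (∀ j, l j ∈ LogForms) →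
    (∀ c : Fin s → algebraicClosure ℚ ℂ, ∑ j, c j • l j ∈
      F ⊔ Submodule.span (algebraicClosure ℚ ℂ) (Set.range y) → ∀ j, c j = 0) →
    ∀ P : MvPolynomial (Fin n ⊕ Fin s) ℂ, (∀ β, P.coeff β ∈ W) →
      (∀ i, P.degreeOf (Sum.inl i) ≤ D) → (∀ β ∈ P.support, ∑ j, β (Sum.inr j) ≤ 1) →
      eval (Sum.elim y l) P = 0 → P = 0

open Classical in
/-- **Main result.** -/
theorem result (n D m : ℕ) : ∃ (k₀ C : ℕ) (δ : ℝ), 0 < δ ∧
    ∀ W : Submodule (algebraicClosure ℚ ℂ) ℂ, Module.Finite (algebraicClosure ℚ ℂ) W →
    finrank (algebraicClosure ℚ ℂ) W ≤ m →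
    ∃ F : Submodule (algebraicClosure ℚ ℂ) ℂ,
      Module.Finite (algebraicClosure ℚ ℂ) F ∧
      finrank (algebraicClosure ℚ ℂ) F ≤ (m + 1) ^ 3 + 1 ∧ F ≤ LogForms ∧
      (W ≤ Submodule.span (algebraicClosure ℚ ℂ) {(1 : ℂ)} →
        F = Submodule.span (algebraicClosure ℚ ℂ) {(1 : ℂ)}) ∧
      ∀ k ≥ k₀, ∀ p : Fin k → ℕ, (∀ i, (p i).Prime) → Function.Injective p →
        ∀ r : Fin n → ℚ, (∀ j, 0 < r j) → ∀ X : Finset ℤ, X.Nonempty →
        (((Fintype.piFinset fun _ : Fin n => Fintype.piFinset fun _ : Fin k => X).filter fun a =>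
          ¬ NoRelation W F D (fun j =>
            (Real.log ((r j : ℝ) * ∏ i, (p i : ℝ) ^ (a j i)) : ℂ))).card : ℝ) ≤
          C * (X.card : ℝ) ^ ((n * k : ℝ) - δ * k) := by
  obtain ⟨k₀, C, δ, hδ, h⟩ := Run7.h788.rand_lin D n m 0
  refine ⟨k₀, C, δ, hδ, fun W hWf hWm => ?_⟩
  have hS := Pool.Agent.R350.setup_complex
  obtain ⟨h1, h2, h3, h4⟩ := Pool.Agent.R350.exSp_bound hS.hyp hS.one W hWm
  refine ⟨Pool.Agent.R350.exSp Pool.Agent.H301R2.SSE.Lt W, h1, h2.trans (le_of_eq (by ring)), h3, h4,
    fun k hk p hp hpi r hr X hX => ?_⟩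
  have hpos : ∀ i, (0 : ℝ) < (p i : ℝ) := fun i => by exact_mod_cast (hp i).pos
  have hlog : ∀ i, IsAlgebraic ℚ (Complex.exp ((Real.log (p i) : ℝ) : ℂ)) := fun i => by
    rw [← Complex.ofReal_exp, Real.exp_log (hpos i), Complex.ofReal_natCast]
    exact isAlgebraic_natCast _
  have hlogr : ∀ j, IsAlgebraic ℚ (Complex.exp ((Real.log (r j) : ℝ) : ℂ)) := fun j => by
    rw [← Complex.ofReal_exp, Real.exp_log (by exact_mod_cast hr j), Complex.ofReal_ratCast]
    exact isAlgebraic_algebraMap (R := ℚ) (A := ℂ) (r j)
  have hli : LinearIndependent ℚ (fun i : Fin k => ((Real.log (p i) : ℝ) : ℂ)) :=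
    Pool.Agent.H297R2.linearIndependent_log_prime p hp hpi
  set X' : Finset ℚ := X.image (fun z : ℤ => (z : ℚ)) with hX'
  have hcard : X'.card = X.card := Finset.card_image_of_injective _ Int.cast_injective
  have h5 := h k hk (algebraicClosure ℚ ℂ) ℂ Pool.Agent.H301R2.SSE.Lt hS.hyp hS.one W hWf hWm
    (fun _ i => ((Real.log (p i) : ℝ) : ℂ))
    (fun _ i => Pool.Agent.H301R2.SSE.Lt_log (hlog i))
    (fun _ => Pool.Agent.R350.li_complex _ hlog hli) X' (hX.image _)
    (fun j => ((Real.log (r j) : ℝ) : ℂ)) (fun j => Pool.Agent.H301R2.SSE.Lt_log (hlogr j))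
  rw [hcard] at h5
  refine le_trans ?_ h5
  rw [Nat.cast_le]
  refine Finset.card_le_card_of_injOn (fun a j i => ((a j i : ℤ) : ℚ)) ?_ ?_
  · intro a ha
    rw [Finset.mem_coe, Finset.mem_filter, Fintype.mem_piFinset] at ha
    rw [Finset.mem_coe, Finset.mem_filter, Fintype.mem_piFinset]
    refine ⟨fun j => Fintype.mem_piFinset.2 fun i => Finset.mem_image_of_mem _
      (Fintype.mem_piFinset.1 (ha.1 j) i), fun hgood => ha.2 ?_⟩
    have he : (fun j => (Real.log ((r j : ℝ) * ∏ i, (p i : ℝ) ^ (a j i)) : ℂ)) =
        fun j => ((Real.log (r j) : ℝ) : ℂ) +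
          ∑ i, (((a j i : ℤ) : ℚ) : ℂ) * ((Real.log (p i) : ℝ) : ℂ) := by
      funext j
      rw [Real.log_mul (by exact_mod_cast (hr j).ne')
        (Finset.prod_ne_zero_iff.2 fun i _ => (zpow_pos (hpos i) _).ne'),
        Real.log_prod (fun i _ => (zpow_pos (hpos _) _).ne'), Complex.ofReal_add,
        Complex.ofReal_sum]
      congr 1
      refine Finset.sum_congr rfl fun i _ => ?_
      rw [Real.log_zpow, Complex.ofReal_mul, Complex.ofReal_intCast, Rat.cast_intCast]
    rw [he]
    exact hgood
  · intro a _ b _ hab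
    funext j i
    have h6 : ((a j i : ℤ) : ℚ) = ((b j i : ℤ) : ℚ) := congrFun (congrFun hab j) i
    exact_mod_cast h6

end Pool.Agent.Results.MP_d171e3_nt.RandomCombinations
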